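import Mathlib
import Pool.Agent.H.MP_a16b96_lc.A

set_option autoImplicit false

namespace Pool.Agent.Results.MP_a16b96_lc.No

open Set Filter Topology Function TopologicalSpace Cardinal Pool.Agent.H.MP_a16b96_lc

/-- countably perfectly meager in `X` -/
def PMσ {X : Type} [TopologicalSpace X] (A : Set X) : Prop :=
  ∀ P : ℕ → Set X, (∀ n, Perfect (P n) ∧ (P n).Nonempty) → ∃ F : ℕ → Set X,
    (∀ k, IsClosed (F k)) ∧ A ⊆ ⋃ k, F k ∧ ∀ n, IsMeagre ((↑) ⁻¹' (⋃ k, F k) : Set (P n))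

/-- universally meager -/
def UM {X : Type} [TopologicalSpace X] (A : Set X) : Prop :=
  ∀ (Y : Type) [TopologicalSpace Y] [PolishSpace Y] [PerfectSpace Y]
    (f : @MeasurableEquiv X Y (borel X) (borel Y)), IsMeagre (f '' A)

theorem result : ∃ (X : Type) (_ : TopologicalSpace X), PolishSpace X ∧ PerfectSpace X ∧
    Nonempty X ∧ ∃ A : Set X, UM A ∧ ¬ PMσ A := by
  classical
  obtain ⟨_, ⟨Y, tY, pY, qY, S, hS, rfl⟩, hm⟩ := wellFounded_lt.has_min {κ : Cardinal |
    ∃ (W : Type) (_ : TopologicalSpace W), PolishSpace W ∧ PerfectSpace W ∧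
      ∃ S : Set W, ¬ IsMeagre S ∧ #S = κ} ⟨_, ℝ, inferInstance, inferInstance, inferInstance, _,
        not_isMeagre_of_isOpen isOpen_univ univ_nonempty, rfl⟩
  have sm : ∀ (W : Type) [TopologicalSpace W] [PolishSpace W] [PerfectSpace W] (T : Set W),
      #T < #S → IsMeagre T := fun W _ _ _ T h => by
    by_contra h'
    exact hm _ ⟨W, _, ‹_›, ‹_›, T, h', rfl⟩ h
  let := upgradeIsCompletelyMetrizable Y
  have hi : ℵ₀ ≤ #S := infinite_iff.1 (infinite_coe_iff.2 fun h => hS (cm h.countable))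
  obtain ⟨_, _, ho⟩ := exists_ord_eq_type_lt S
  have s1 : ∀ ξ : S, IsMeagre ((↑) '' Iic ξ : Set Y) := fun ξ =>
    sm _ _ (mk_image_le.trans_lt (mk_Iic_lt ξ ho hi))
  have ex : ∀ {p : Y → Prop}, (∀ᶠ y in residual Y, p y) → ∃ y : S, p y := fun h => by
    by_contra h'
    exact hS (mem_of_superset h fun y hy hy' => h' ⟨⟨y, hy'⟩, hy⟩)
  obtain ⟨⟨y0, -⟩, -⟩ := ex (Eventually.of_forall fun _ => trivial)
  have : Nonempty Y := ⟨y0⟩
  obtain ⟨V, hV⟩ := (countable_countableBasis Y).exists_eq_range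
    (((isBasis_countableBasis Y).exists_subset_of_mem_open (mem_univ y0) isOpen_univ).imp
      fun _ h => h.1)
  have v1 : ∀ m, V m ∈ countableBasis Y := fun m => hV ▸ mem_range_self m
  have v2 : ∀ O : Set Y, IsOpen O → O.Nonempty → ∃ l, V l ⊆ O := fun O o1 ⟨y, hy⟩ => by
    obtain ⟨_, h, -, h'⟩ := (isBasis_countableBasis Y).exists_subset_of_mem_open hy o1
    obtain ⟨l, rfl⟩ : _ ∈ range V := hV ▸ h
    exact ⟨l, h'⟩
  have hc : ∀ ξ : S, ∃ c : ℕ → ℕ, (∀ k, V (c k) ⊆ V k.unpair.2) ∧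
      ∀ β ≤ ξ, ∃ n, ∀ l, β.1 ∉ V (c (Nat.pair n l)) := fun ξ => by
    obtain ⟨T, t1, t2, t3, t4⟩ := mem_residual_iff.1 (s1 ξ)
    obtain ⟨D, hD⟩ := (t3.insert Set.univ).exists_eq_range (insert_nonempty _ _)
    have : ∀ k : ℕ, ∃ m, V m ⊆ V k.unpair.2 ∩ D k.unpair.1 := fun k => by
      rcases (hD ▸ mem_range_self _ : D k.unpair.1 ∈ insert Set.univ T) with h | h
      · exact ⟨_, by rw [h, inter_univ]⟩
      · exact v2 _ ((isOpen_of_mem_countableBasis (v1 _)).inter (t1 _ h))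
          ((t2 _ h).inter_open_nonempty _ (isOpen_of_mem_countableBasis (v1 _))
            (nonempty_of_mem_countableBasis (v1 _)))
    choose c hc using this
    refine ⟨c, fun k => (hc k).trans inter_subset_left, fun β hβ => ?_⟩
    by_contra h
    push Not at h
    refine t4 (fun t ht => ?_) ⟨β, hβ, rfl⟩
    obtain ⟨n, rfl⟩ : t ∈ range D := hD ▸ Or.inr ht
    obtain ⟨l, hl⟩ := h n
    simpa using (hc _ hl).2
  choose c c1 c2 using hc
  have ht : ∀ (y : Y) (k : ℕ), ∃ t : ℕ, ∀ i ≤ k, y ≠ denseSeq Y i →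
      1 / ((t : ℝ) + 1) < dist y (denseSeq Y i) := fun y k =>
    ((finite_Iic k).eventually_all (l := atTop) (p := fun i (t : ℕ) => y ≠ denseSeq Y i →
      1 / ((t : ℝ) + 1) < dist y (denseSeq Y i)) |>.2 fun i _ => by
        by_cases h : y = denseSeq Y i
        · exact Eventually.of_forall fun _ h' => (h' h).elim
        · exact (tendsto_one_div_add_atTop_nhds_zero_nat.eventually
            (gt_mem_nhds (dist_pos.2 h))).mono fun _ h _ => h).exists
  choose t ht using ht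
  let x : S → ℕ → ℕ∞ := fun ξ k => (Nat.pair (t ξ k) (c ξ k) : ℕ)
  have := pol
  have pf : ∀ z : ℕ → ℕ∞, Perfect (range (Prod.mk z : Y → _)) := fun z =>
    ⟨by
      convert isClosed_eq (continuous_fst (Y := Y)) (continuous_const (y := z))
      exact Set.ext fun p => ⟨fun ⟨_, h⟩ => h ▸ rfl, fun h => ⟨p.2, Prod.ext h.symm rfl⟩⟩, by
      rintro _ ⟨y, rfl⟩
      simpa using (PerfectSpace.univ_preperfect y trivial).map (f := Prod.mk z) (by fun_prop)
        (Prod.mk_right_injective z)⟩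
  refine ⟨(ℕ → ℕ∞) × Y, inferInstance, inferInstance, ⟨fun p _ => ((pf p.1).acc p ⟨_, rfl⟩).mono
    (by simp)⟩, inferInstance, {p | ∃ α ξ : S, α ≤ ξ ∧ p = (x ξ, α.1)}, fun W _ _ _ f => ?_,
    fun h => ?_⟩
  · borelize W ((ℕ → ℕ∞) × Y)
    obtain ⟨β, hβ⟩ := ex (ku (W := W) (fun n l (a : ℕ∞) => V (if V a.toNat.unpair.2 ⊆ V l then
      a.toNat.unpair.2 else l)) (fun _ _ _ => isOpen_of_mem_countableBasis (v1 _))
      (fun _ _ _ => nonempty_of_mem_countableBasis (v1 _)) (fun O o1 o2 => (v2 O o1 o2).imp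
        fun l hl _ _ => by split_ifs with h; exacts [h.trans hl, hl])
      (fun n l w => (f.symm w).1 (Nat.pair n l)) fun n l a => MeasurableSet.baireMeasurableSet
        (f.symm.measurable (isClosed_eq (f := fun p : (ℕ → ℕ∞) × Y => p.1 (Nat.pair n l))
          (by fun_prop) continuous_const).measurableSet))
    have h1 := sm W (range fun p : Iic β × Iic β => f (x p.1, p.2.1.1)) (mk_range_le.trans_lt
      (by simpa using mul_lt_of_lt hi (mk_Iic_lt β ho hi) (mk_Iic_lt β ho hi)))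
    filter_upwards [hβ, h1] with w w1 w2
    rintro ⟨_, ⟨α, ξ, h2, rfl⟩, rfl⟩
    rcases le_total ξ β with h3 | h3
    · exact w2 ⟨(⟨ξ, h3⟩, ⟨α, h2.trans h3⟩), rfl⟩
    · obtain ⟨n, hn⟩ := c2 ξ β h3
      obtain ⟨l, hl⟩ := w1 n
      have := c1 ξ (Nat.pair n l)
      rw [Nat.unpair_pair] at this
      rw [f.symm_apply_apply] at hl
      simp only [x, ENat.toNat_natCast, Nat.unpair_pair, this, if_true] at hl
      exact hn l hl
  · obtain ⟨e, he⟩ := exists_surjective_nat (List ℕ∞)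
    obtain ⟨F, f1, f2, f3⟩ := h (fun n => range (Prod.mk fun i => (e n).getD i ⊤)) fun n =>
      ⟨pf _, range_nonempty _⟩
    obtain ⟨α, hα⟩ := ex (eventually_countable_forall.2 fun n => (f3 n).preimage_of_isOpenMap
      (isEmbedding_prodMkRight _).toHomeomorph.continuous
      (isEmbedding_prodMkRight _).toHomeomorph.isOpenMap)
    choose g hg using fun k => bd ((f1 k).preimage (f := fun z => (z, α.1)) (by fun_prop))
      fun l hl => by
        obtain ⟨n, rfl⟩ := he l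
        exact hα n (mem_iUnion.2 ⟨k, hl⟩)
    have h1 : ∀ᶠ y in residual Y, ∀ k, y ∈ ⋃ n, Metric.ball (denseSeq Y n) (1 / (g k n + 1)) :=
      eventually_countable_forall.2 fun k => residual_of_dense_open
        (isOpen_iUnion fun _ => Metric.isOpen_ball) ((denseRange_denseSeq Y).mono
          (range_subset_iff.2 fun n => mem_iUnion.2 ⟨n, Metric.mem_ball_self (by positivity)⟩))
    obtain ⟨ξ, h2, h3, h4⟩ := ex (h1.and (Eventually.and (s1 α)
      (cm (countable_range (denseSeq Y)))))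
    obtain ⟨k, hk⟩ := mem_iUnion.1 (f2 ⟨α, ξ, le_of_not_ge fun h => h3 ⟨ξ, h, rfl⟩, rfl⟩)
    obtain ⟨n, hn⟩ := mem_iUnion.1 (h2 k)
    obtain ⟨m, m1, m2⟩ := hg k _ hk n
    have m3 : (t ξ m : ℝ) ≤ g k n := by
      exact_mod_cast (Nat.left_le_pair _ _).trans (Nat.cast_lt.1 m2).le
    exact ((ht ξ m n m1 fun h => h4 ⟨n, h.symm⟩).trans hn).not_ge (by gcongr)

end Pool.Agent.Results.MP_a16b96_lc.No
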